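import Mathlib

/-!
# Distribution of a set of integers over the intervals between consecutive cubes
-/

set_option autoImplicit false

open Finset Filter

namespace Pool.Agent.H804.Cubes

/-- the elements `p` of `S` with `n ^ 3 < p` and `p + w < (n + 1) ^ 3` -/
noncomputable def inside (S : Set ℕ) (w n : ℕ) : ℕ :=
  {p : ℕ | p ∈ S ∧ n ^ 3 < p ∧ p + w < (n + 1) ^ 3}.ncard

lemma inside_finite (S : Set ℕ) (w n : ℕ) :
    {p : ℕ | p ∈ S ∧ n ^ 3 < p ∧ p + w < (n + 1) ^ 3}.Finite := by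
  apply (Set.finite_lt_nat ((n + 1) ^ 3)).subset
  rintro p ⟨-, -, h⟩
  exact lt_of_le_of_lt (Nat.le_add_right _ _) h

lemma inside_mono {S T : Set ℕ} (h : S ⊆ T) (w n : ℕ) : inside S w n ≤ inside T w n := by
  apply Set.ncard_le_ncard _ (inside_finite T w n)
  rintro p ⟨h1, h2⟩
  exact ⟨h h1, h2⟩

lemma inside_le (S : Set ℕ) (w n N : ℕ) (hn : n ≤ N) (hN : 1 ≤ N) : inside S w n ≤ 7 * N ^ 2 := by
  have h1 : inside S w n ≤ ((Ioo (n ^ 3) ((n + 1) ^ 3) : Finset ℕ) : Set ℕ).ncard := by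
    apply Set.ncard_le_ncard _ (Finset.finite_toSet _)
    rintro p ⟨-, h2, h3⟩
    rw [mem_coe, mem_Ioo]
    exact ⟨h2, lt_of_le_of_lt (Nat.le_add_right _ _) h3⟩
  rw [Set.ncard_coe_finset, Nat.card_Ioo] at h1
  have h2 : (n + 1) ^ 3 - n ^ 3 - 1 ≤ 3 * n ^ 2 + 3 * n := by
    have : (n + 1) ^ 3 = n ^ 3 + (3 * n ^ 2 + 3 * n + 1) := by ring
    omega
  nlinarith [Nat.pow_le_pow_left hn 2]

open Classical in
/-- the counting lemma -/
lemma count (S : Set ℕ) (A : Finset ℕ) (hAS : (A : Set ℕ) ⊆ S) (w N K : ℕ) (hN : 1 ≤ N)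
    (hA : ∀ p ∈ A, 1 ≤ p ∧ p < (N + 1) ^ 3) :
    A.card ≤ ((Icc 1 N).filter (fun n => K ≤ inside S w n)).card * (7 * N ^ 2) +
      N * (K + w + 1) := by
  -- the cube root
  have hroot : ∀ p ∈ A, ∃ n ∈ Icc 1 N, n ^ 3 ≤ p ∧ p < (n + 1) ^ 3 := by
    intro p hp
    obtain ⟨h1, h2⟩ := hA p hp
    have hex : ∃ m : ℕ, p < (m + 1) ^ 3 := ⟨N, h2⟩
    refine ⟨Nat.find hex, ?_, ?_, Nat.find_spec hex⟩
    · rw [mem_Icc]
      refine ⟨?_, Nat.find_min' hex h2⟩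
      by_contra h0
      have h0' : Nat.find hex = 0 := by omega
      have := Nat.find_spec hex
      rw [h0'] at this
      omega
    · by_contra h3
      push Not at h3
      have hpos : Nat.find hex ≠ 0 := by
        intro h0
        rw [h0] at h3
        omega
      obtain ⟨m, hm⟩ := Nat.exists_eq_succ_of_ne_zero hpos
      have := Nat.find_min hex (m := m) (by omega)
      apply this
      rw [hm] at h3
      exact h3
  have hsub : A ⊆ (Icc 1 N).biUnion (fun n => A.filter (fun p => n ^ 3 ≤ p ∧ p < (n + 1) ^ 3)) := by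
    intro p hp
    obtain ⟨n, hn, h1⟩ := hroot p hp
    exact mem_biUnion.2 ⟨n, hn, mem_filter.2 ⟨hp, h1⟩⟩
  have hone : ∀ n ∈ Icc 1 N, (A.filter (fun p => n ^ 3 ≤ p ∧ p < (n + 1) ^ 3)).card ≤
      (if K ≤ inside S w n then 7 * N ^ 2 else 0) + (K + w + 1) := by
    intro n hn
    have h1 : A.filter (fun p => n ^ 3 ≤ p ∧ p < (n + 1) ^ 3) ⊆
        (inside_finite S w n).toFinset ∪ (insert (n ^ 3) (Ico ((n + 1) ^ 3 - w) ((n + 1) ^ 3))) := by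
      intro p hp
      obtain ⟨hp1, hp2, hp3⟩ := mem_filter.1 hp
      rw [mem_union, Set.Finite.mem_toFinset, mem_insert, mem_Ico]
      by_cases h4 : p = n ^ 3
      · right; left; exact h4
      by_cases h5 : p + w < (n + 1) ^ 3
      · left
        exact ⟨hAS hp1, lt_of_le_of_ne hp2 (Ne.symm h4), h5⟩
      · right; right
        omega
    have h2 : (A.filter (fun p => n ^ 3 ≤ p ∧ p < (n + 1) ^ 3)).card ≤ inside S w n + (w + 1) := by
      refine (card_le_card h1).trans ((card_union_le _ _).trans ?_)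
      have h3 : (inside_finite S w n).toFinset.card = inside S w n := by
        rw [inside, Set.ncard_eq_toFinset_card _ (inside_finite S w n)]
      rw [h3]
      apply Nat.add_le_add_left
      refine (card_insert_le _ _).trans ?_
      rw [Nat.card_Ico]
      omega
    split_ifs with h
    · have := inside_le S w n N (mem_Icc.1 hn).2 hN
      omega
    · omega
  calc A.card ≤ ∑ n ∈ Icc 1 N, (A.filter (fun p => n ^ 3 ≤ p ∧ p < (n + 1) ^ 3)).card :=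
        (card_le_card hsub).trans card_biUnion_le
    _ ≤ ∑ n ∈ Icc 1 N, ((if K ≤ inside S w n then 7 * N ^ 2 else 0) + (K + w + 1)) :=
        sum_le_sum hone
    _ = _ := by
        rw [sum_add_distrib, sum_const, Nat.card_Icc, ← sum_filter, sum_const]
        simp

open Classical in
/-- the analytic form -/
lemma main (ε : ℝ) (hε : 0 < ε) (hε1 : ε ≤ 1) : ∀ᶠ N : ℕ in atTop, ∀ (S : Set ℕ) (A : Finset ℕ) (w : ℕ),
    (A : Set ℕ) ⊆ S → (∀ p ∈ A, 1 ≤ p ∧ p < (N + 1) ^ 3) → (w : ℝ) ≤ (N : ℝ) ^ (2 - ε) →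
    (N : ℝ) ^ (3 - ε / 2) ≤ A.card →
    (N : ℝ) ^ (1 - ε) ≤
      (((Icc 1 N).filter (fun n : ℕ => (n : ℝ) ^ (2 - ε) ≤ (inside S w n : ℝ))).card : ℝ) := by
  have h8 : ∀ᶠ N : ℕ in atTop, (14 : ℝ) ≤ (N : ℝ) ^ (ε / 2) :=
    ((tendsto_rpow_atTop (by positivity)).comp tendsto_natCast_atTop_atTop).eventually_ge_atTop _
  filter_upwards [h8, eventually_ge_atTop 1] with N h14 hN1 S A w hAS hA hw hcard
  have hN0 : (0 : ℝ) < N := by exact_mod_cast hN1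
  have hN1' : (1 : ℝ) ≤ N := by exact_mod_cast hN1
  obtain ⟨K, hK⟩ : ∃ K, K = ⌈(N : ℝ) ^ (2 - ε)⌉₊ := ⟨_, rfl⟩
  have hKpos : (0 : ℝ) ≤ (N : ℝ) ^ (2 - ε) := Real.rpow_nonneg hN0.le _
  have hK1 : (N : ℝ) ^ (2 - ε) ≤ K := by rw [hK]; exact Nat.le_ceil _
  have hK2 : (K : ℝ) ≤ (N : ℝ) ^ (2 - ε) + 1 := by rw [hK]; exact (Nat.ceil_lt_add_one hKpos).le
  have h1 := count S A hAS w N K hN1 hA
  have hsub : ((Icc 1 N).filter (fun n => K ≤ inside S w n)).card ≤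
      ((Icc 1 N).filter (fun n : ℕ => (n : ℝ) ^ (2 - ε) ≤ (inside S w n : ℝ))).card := by
    apply card_le_card
    intro n hn
    obtain ⟨hn1, hn2⟩ := mem_filter.1 hn
    refine mem_filter.2 ⟨hn1, ?_⟩
    have h2 : (n : ℝ) ^ (2 - ε) ≤ (N : ℝ) ^ (2 - ε) :=
      Real.rpow_le_rpow (Nat.cast_nonneg n) (by exact_mod_cast (mem_Icc.1 hn1).2) (by linarith)
    have h3 : (K : ℝ) ≤ inside S w n := by exact_mod_cast hn2
    linarith
  obtain ⟨G, hG⟩ : ∃ G, G = ((Icc 1 N).filter (fun n : ℕ => (n : ℝ) ^ (2 - ε) ≤ (inside S w n : ℝ))).card :=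
    ⟨_, rfl⟩
  rw [← hG] at hsub ⊢
  have h2 : (A.card : ℝ) ≤ G * (7 * N ^ 2) + N * (K + w + 1) := by
    have : A.card ≤ G * (7 * N ^ 2) + N * (K + w + 1) :=
      h1.trans (Nat.add_le_add_right (Nat.mul_le_mul_right _ hsub) _)
    exact_mod_cast this
  -- powers
  have e1 : (N : ℝ) * (N : ℝ) ^ (2 - ε) = (N : ℝ) ^ (3 - ε) := by
    have : (N : ℝ) ^ (1 + (2 - ε)) = (N : ℝ) ^ (1 : ℝ) * (N : ℝ) ^ (2 - ε) := Real.rpow_add hN0 _ _
    rw [Real.rpow_one] at this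
    rw [← this]; congr 1; ring
  have e2 : (N : ℝ) ^ (3 - ε / 2) = (N : ℝ) ^ (3 - ε) * (N : ℝ) ^ (ε / 2) := by
    rw [← Real.rpow_add hN0]; congr 1; ring
  have e3 : (N : ℝ) ^ (1 - ε) * (N : ℝ) ^ 2 = (N : ℝ) ^ (3 - ε) := by
    have : (N : ℝ) ^ ((1 - ε) + 2) = (N : ℝ) ^ (1 - ε) * (N : ℝ) ^ (2 : ℝ) := Real.rpow_add hN0 _ _
    rw [Real.rpow_two] at this
    rw [← this]; congr 1; ring
  have e4 : (1 : ℝ) ≤ (N : ℝ) ^ (2 - ε) := Real.one_le_rpow hN1' (by linarith)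
  have h3 : (N : ℝ) * (K + w + 1) ≤ 4 * (N : ℝ) ^ (3 - ε) := by
    have : (K : ℝ) + w + 1 ≤ 4 * (N : ℝ) ^ (2 - ε) := by linarith
    calc (N : ℝ) * (K + w + 1) ≤ N * (4 * (N : ℝ) ^ (2 - ε)) := mul_le_mul_of_nonneg_left this hN0.le
      _ = 4 * (N * (N : ℝ) ^ (2 - ε)) := by ring
      _ = _ := by rw [e1]
  have hpos : (0 : ℝ) < (N : ℝ) ^ (3 - ε) := Real.rpow_pos_of_pos hN0 _
  have h4 : 14 * (N : ℝ) ^ (3 - ε) ≤ (N : ℝ) ^ (3 - ε / 2) := by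
    rw [e2]; nlinarith
  have h5 : 7 * (N : ℝ) ^ (3 - ε) ≤ G * (7 * N ^ 2) := by linarith
  rw [← e3] at h5
  have h6 : (0 : ℝ) < (N : ℝ) ^ 2 := by positivity
  by_contra hcon
  push Not at hcon
  have := mul_lt_mul_of_pos_right hcon h6
  nlinarith

open Classical in
/-- monotonicity in the exponent -/
lemma good_mono (f : ℕ → ℕ) (a b : ℝ) (hab : a ≤ b) (N : ℕ) (hN : 1 ≤ N)
    (h : (N : ℝ) ^ (1 - a) ≤ (((Icc 1 N).filter (fun n : ℕ => (n : ℝ) ^ (2 - a) ≤ (f n : ℝ))).card : ℝ)) :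
    (N : ℝ) ^ (1 - b) ≤ (((Icc 1 N).filter (fun n : ℕ => (n : ℝ) ^ (2 - b) ≤ (f n : ℝ))).card : ℝ) := by
  have hN1 : (1 : ℝ) ≤ N := by exact_mod_cast hN
  refine (Real.rpow_le_rpow_of_exponent_le hN1 (by linarith)).trans (h.trans ?_)
  rw [Nat.cast_le]
  apply card_le_card
  intro n hn
  obtain ⟨h1, h2⟩ := mem_filter.1 hn
  refine mem_filter.2 ⟨h1, le_trans (Real.rpow_le_rpow_of_exponent_le ?_ (by linarith)) h2⟩
  exact_mod_cast (mem_Icc.1 h1).1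

open Classical in
/-- comparison of counting functions -/
lemma good_le (f g : ℕ → ℕ) (hfg : ∀ n, f n ≤ g n) (a : ℝ) (N : ℕ) :
    (((Icc 1 N).filter (fun n : ℕ => (n : ℝ) ^ (2 - a) ≤ (f n : ℝ))).card : ℝ) ≤
    (((Icc 1 N).filter (fun n : ℕ => (n : ℝ) ^ (2 - a) ≤ (g n : ℝ))).card : ℝ) := by
  rw [Nat.cast_le]
  apply card_le_card
  intro n hn
  obtain ⟨h1, h2⟩ := mem_filter.1 hn
  refine mem_filter.2 ⟨h1, h2.trans ?_⟩
  exact_mod_cast hfg n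

lemma floor_cube (N : ℕ) : ⌊((N : ℝ)) ^ (3 : ℕ)⌋₊ = N ^ 3 := by
  have : ((N : ℝ)) ^ (3 : ℕ) = ((N ^ 3 : ℕ) : ℝ) := by push_cast; ring
  rw [this, Nat.floor_natCast]

lemma cube_lt (N : ℕ) : N ^ 3 < (N + 1) ^ 3 :=
  Nat.pow_lt_pow_left (Nat.lt_succ_self N) (by norm_num)

/-- constants are at most a power -/
lemma const_le (c a : ℝ) (ha : 0 < a) : ∀ᶠ N : ℕ in atTop, c ≤ (N : ℝ) ^ a :=
  ((tendsto_rpow_atTop ha).comp tendsto_natCast_atTop_atTop).eventually_ge_atTop _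

end Pool.Agent.H804.Cubes
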