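import Pool.Agent.Y826.ZC.Exact
import Pool.Agent.H358R5.Stubs2

/-!
# Exact patterns with at least `m + 1` primes in every large admissible set of shifts

Adapted from `Pool.Agent.Y826.ZC.Exact` (the case of `DHL[45,2]`).
-/

set_option autoImplicit false

open Finset Filter

namespace Pool.Agent.H804.ExactM

open Pool.Agent.Y826.ZC Pool.Agent.H358R5

theorem core (M K : ℕ) (hD : LHyp M K) (T : Finset ℤ) (hT : T.card = K)
    (hadm : ∀ p : ℕ, p.Prime → ∃ r : ℤ, ∀ s ∈ T, ¬ (p : ℤ) ∣ r + s)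
    (q : ℕ) (r : ℤ) (hq : 0 < q) (hr : ∀ s ∈ T, IsCoprime (r + s) (q : ℤ)) (R : ℕ)
    (hR : ∀ s ∈ T, |s| ≤ R) (ε : ℝ) (hε : 0 < ε) :
    ∀ᶠ x : ℝ in atTop, ∃ B ⊆ T, M + 1 ≤ B.card ∧ x ^ (1 - ε) ≤ ((Pat q r B R x).ncard : ℝ) := by
  classical
  obtain ⟨Q, c, hQ0, hcR, hcr, hqQ, hpr, hcomp⟩ := exact_forms T q r hq hr R hR
  obtain ⟨f, hf⟩ : ∃ f : Fin K ↪o ℤ, f = T.orderEmbOfFin hT := ⟨_, rfl⟩
  have hmem : ∀ i, f i ∈ T := fun i => by rw [hf]; exact Finset.orderEmbOfFin_mem T hT i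
  have hcast : ∀ i, (((c + f i).toNat : ℕ) : ℤ) = c + f i := by
    intro i
    apply Int.toNat_of_nonneg
    have h1 := (abs_le.1 (hR _ (hmem i))).1
    omega
  have hgood := hD (fun _ : Fin K => Q) (fun i => (c + f i).toNat) (fun _ => hQ0)
    (fun i j hij h => by
      have h1 : (c + f j).toNat = (c + f i).toNat := Nat.eq_of_mul_eq_mul_left hQ0 h
      have h2 := hcast i
      have h3 := hcast j
      rw [h1, h2] at h3
      exact hij (f.injective (by linarith)))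
    (fun p hp => by
      by_cases hpQ : p ∣ Q
      · refine ⟨0, fun i h => hpr _ (hmem i) p hp hpQ ?_⟩
        rw [Nat.mul_zero, zero_add] at h
        rw [← hcast i]
        exact_mod_cast h
      · obtain ⟨r', hr'⟩ := hadm p hp
        have h1 : IsCoprime (Q : ℤ) (p : ℤ) := by
          rw [Nat.isCoprime_iff_coprime, Nat.coprime_comm, hp.coprime_iff_not_dvd]
          exact hpQ
        obtain ⟨u, v, huv⟩ := h1
        have hp0 : (p : ℤ) ≠ 0 := by exact_mod_cast hp.ne_zero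
        refine ⟨((u * (r' - c)) % p).toNat, fun i h => hr' _ (hmem i) ?_⟩
        have h2 : (((u * (r' - c)) % p).toNat : ℤ) = (u * (r' - c)) % p :=
          Int.toNat_of_nonneg (Int.emod_nonneg _ hp0)
        have h3 : (p : ℤ) ∣ (Q : ℤ) * (((u * (r' - c)) % p).toNat : ℤ) + (((c + f i).toNat : ℕ) : ℤ) := by
          exact_mod_cast h
        rw [h2, hcast i, Int.emod_def] at h3
        have h4 : r' + f i = (Q : ℤ) * (u * (r' - c) - p * (u * (r' - c) / p)) + (c + f i) +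
            p * (v * (r' - c) + Q * (u * (r' - c) / p)) := by
          linear_combination (-(r' - (c : ℤ))) * huv
        rw [h4]
        exact dvd_add h3 (dvd_mul_right _ _))
  have hQr : (0 : ℝ) < 2 * (Q : ℝ) := by
    have : (0 : ℝ) < Q := by exact_mod_cast hQ0
    linarith
  have h2 : Tendsto (fun x : ℝ => x / (2 * (Q : ℝ))) atTop atTop := tendsto_id.atTop_div_const hQr
  filter_upwards [exact_asy ε hε (2 ^ K + 1) (2 * (Q : ℝ)) hQr,
    h2.eventually (hgood (ε / 2) (by positivity)), eventually_ge_atTop (2 * (c : ℝ)),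
    eventually_gt_atTop (0 : ℝ)] with x hx1 hx2 hx3 hx4
  by_contra hcon
  push Not at hcon
  obtain ⟨G, hG⟩ : ∃ G : Finset ℕ, G = (Icc 1 ⌊x / (2 * (Q : ℝ))⌋₊).filter
    (fun n : ℕ => M + 1 ≤ (univ.filter fun i : Fin K => (Q * n + (c + f i).toNat).Prime).card) := ⟨_, rfl⟩
  obtain ⟨Bn, hBn⟩ : ∃ Bn : ℕ → Finset ℤ, Bn = fun m =>
    T.filter (fun s => ∃ p : ℕ, p.Prime ∧ (p : ℤ) = ((Q * m + c : ℕ) : ℤ) + s) := ⟨_, rfl⟩
  have hsum : ∀ (m : ℕ) (i : Fin K), ((Q * m + (c + f i).toNat : ℕ) : ℤ) =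
      ((Q * m + c : ℕ) : ℤ) + f i := by
    intro m i
    push_cast
    have := hcast i
    rw [this]
    ring
  have hmaps : ∀ m ∈ G, Bn m ∈ T.powerset.filter (fun B => M + 1 ≤ B.card) := by
    intro m hm
    rw [hG, Finset.mem_filter] at hm
    obtain ⟨-, hm2⟩ := hm
    rw [Finset.mem_filter, Finset.mem_powerset, hBn]
    refine ⟨Finset.filter_subset _ _, hm2.trans ?_⟩
    rw [← card_image_of_injective _ f.injective]
    apply card_le_card
    intro s hs
    obtain ⟨i, hi, rfl⟩ := mem_image.1 hs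
    exact Finset.mem_filter.2 ⟨hmem i, _, (mem_filter.1 hi).2, hsum m i⟩
  have hfib : ∀ B ∈ T.powerset.filter (fun B => M + 1 ≤ B.card),
      ((G.filter (fun m => Bn m = B)).card : ℝ) ≤ x ^ (1 - ε) := by
    intro B hB
    rw [Finset.mem_filter, Finset.mem_powerset] at hB
    refine le_trans ?_ (hcon B hB.1 hB.2).le
    have h3 : ((G.filter (fun m => Bn m = B) : Finset ℕ) : Set ℕ).ncard ≤ (Pat q r B R x).ncard := by
      refine Set.ncard_le_ncard_of_injOn (fun m => Q * m + c) ?_ ?_ (Pat_finite q r B R x)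
      · intro m hm
        rw [Finset.mem_coe, Finset.mem_filter, hG, Finset.mem_filter, Finset.mem_Icc] at hm
        obtain ⟨⟨⟨hm1, hm2⟩, -⟩, hmB⟩ := hm
        refine ⟨?_, ?_, fun y hy => ?_⟩
        · have h4 : (m : ℝ) ≤ x / (2 * (Q : ℝ)) :=
            (Nat.le_floor_iff (by positivity)).1 hm2
          rw [le_div_iff₀ hQr] at h4
          push_cast
          linarith
        · obtain ⟨k, hk⟩ := hqQ
          have h4 : ((Q : ℤ) * m) ≡ 0 [ZMOD q] := by
            rw [Int.modEq_zero_iff_dvd, hk]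
            push_cast
            exact ⟨k * m, by ring⟩
          push_cast
          simpa using h4.add hcr
        · rw [← hmB, hBn]
          constructor
          · intro hp
            have hyT : y ∈ T := by
              by_contra hyT
              exact hcomp m hm1 y hy hyT hp
            exact Finset.mem_filter.2 ⟨hyT, hp⟩
          · intro hy'
            exact (Finset.mem_filter.1 hy').2
      · intro m _ m' _ h
        have h4 : Q * m + c = Q * m' + c := h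
        exact Nat.eq_of_mul_eq_mul_left hQ0 (by omega)
    rw [Set.ncard_coe_finset] at h3
    exact_mod_cast h3
  have hcard : (G.card : ℝ) ≤ 2 ^ K * x ^ (1 - ε) := by
    have h3 := Finset.card_eq_sum_card_fiberwise (s := G)
      (t := T.powerset.filter (fun B => M + 1 ≤ B.card)) (f := Bn) hmaps
    have h4 : (G.card : ℝ) ≤ ((T.powerset.filter (fun B => M + 1 ≤ B.card)).card : ℝ) * x ^ (1 - ε) := by
      rw [h3]
      push_cast
      rw [← nsmul_eq_mul]
      exact Finset.sum_le_card_nsmul _ _ _ hfib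
    refine h4.trans (mul_le_mul_of_nonneg_right ?_ (Real.rpow_nonneg hx4.le _))
    have h5 : (T.powerset.filter (fun B => M + 1 ≤ B.card)).card ≤ 2 ^ K := by
      refine (Finset.card_filter_le _ _).trans ?_
      rw [Finset.card_powerset, hT]
    exact_mod_cast h5
  have h6 : (0 : ℝ) < x ^ (1 - ε) := Real.rpow_pos_of_pos hx4 _
  have hx2' : (x / (2 * (Q : ℝ))) ^ (1 - ε / 2) ≤ (G.card : ℝ) := by rw [hG]; exact hx2
  have h7 := hx1.trans (hx2'.trans hcard)
  nlinarith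

/-- exact patterns of primes in every admissible set of at least `K` shifts -/
theorem exact_of (M K : ℕ) (hD : LHyp M K) (S : Finset ℤ) (hS : K ≤ S.card)
    (hadm : ∀ p : ℕ, p.Prime → ∃ r : ℤ, ∀ s ∈ S, ¬ (p : ℤ) ∣ r + s) (q : ℕ) (r : ℤ) (hq : 0 < q)
    (hr : ∀ s ∈ S, IsCoprime (r + s) (q : ℤ)) :
    ∃ B : Finset ℤ, B ⊆ S ∧ M + 1 ≤ B.card ∧ ∀ (R : ℕ) (ε : ℝ), 0 < ε → ∃ᶠ x : ℝ in atTop,
      x ^ (1 - ε) ≤ (Set.ncard {n : ℕ | (n : ℝ) ≤ x ∧ (n : ℤ) ≡ r [ZMOD q] ∧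
        ∀ y : ℤ, |y| ≤ R → ((∃ p : ℕ, p.Prime ∧ (p : ℤ) = n + y) ↔ y ∈ B)} : ℝ) := by
  classical
  obtain ⟨T, hTS, hT⟩ := Finset.exists_subset_card_eq hS
  by_contra hcon
  push Not at hcon
  have h1 : ∀ B : Finset ℤ, ∃ (R : ℕ) (ε : ℝ), 0 < ε ∧ (B ⊆ S → M + 1 ≤ B.card →
      ∀ᶠ x : ℝ in atTop, ((Pat q r B R x).ncard : ℝ) < x ^ (1 - ε)) := by
    intro B
    by_cases h : B ⊆ S ∧ M + 1 ≤ B.card
    · obtain ⟨R, ε, hε, h2⟩ := hcon B h.1 h.2
      refine ⟨R, ε, hε, fun _ _ => ?_⟩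
      filter_upwards [h2] with x hx using hx
    · exact ⟨0, 1, one_pos, fun h2 h3 => absurd ⟨h2, h3⟩ h⟩
  choose Rf ef he hf using h1
  obtain ⟨R0, hR0⟩ : ∃ R0 : ℕ, ∀ s ∈ T, |s| ≤ R0 := by
    refine ⟨T.sup (fun s => s.natAbs), fun s hs => ?_⟩
    rw [Int.abs_eq_natAbs]
    exact_mod_cast Finset.le_sup (f := fun s : ℤ => s.natAbs) hs
  obtain ⟨R, hR1, hR2⟩ : ∃ R : ℕ, R0 ≤ R ∧ ∀ B ∈ T.powerset, Rf B ≤ R :=
    ⟨R0 + T.powerset.sup Rf, by omega, fun B hB => (Finset.le_sup (f := Rf) hB).trans (by omega)⟩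
  obtain ⟨B0, hB0, hmin⟩ := Finset.exists_min_image T.powerset ef ⟨∅, Finset.empty_mem_powerset _⟩
  have hcore := core M K hD T hT
    (fun p hp => (hadm p hp).imp fun r' h s hs => h s (hTS hs)) q r hq (fun s hs => hr s (hTS hs)) R
    (fun s hs => (hR0 s hs).trans (by exact_mod_cast hR1)) (ef B0) (he B0)
  have hall : ∀ᶠ x : ℝ in atTop, ∀ B ∈ T.powerset, M + 1 ≤ B.card →
      ((Pat q r B (Rf B) x).ncard : ℝ) < x ^ (1 - ef B) := by
    rw [Filter.eventually_all_finset]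
    intro B hB
    by_cases h : M + 1 ≤ B.card
    · filter_upwards [hf B ((Finset.mem_powerset.1 hB).trans hTS) h] with x hx _ using hx
    · exact Filter.Eventually.of_forall fun x h' => absurd h' h
  obtain ⟨x, hx1, hx2, hx3⟩ := (hcore.and (hall.and (eventually_ge_atTop (1 : ℝ)))).exists
  obtain ⟨B, hBT, hB2, hBx⟩ := hx1
  have hB : B ∈ T.powerset := Finset.mem_powerset.2 hBT
  have h4 := hx2 B hB hB2
  have h5 : (Pat q r B R x).ncard ≤ (Pat q r B (Rf B) x).ncard :=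
    Set.ncard_le_ncard (Pat_anti q r B (hR2 B hB) x) (Pat_finite _ _ _ _ _)
  have h6 : ((Pat q r B R x).ncard : ℝ) ≤ ((Pat q r B (Rf B) x).ncard : ℝ) := by exact_mod_cast h5
  have h7 : x ^ (1 - ef B) ≤ x ^ (1 - ef B0) :=
    Real.rpow_le_rpow_of_exponent_le hx3 (by linarith [hmin B hB])
  linarith

end Pool.Agent.H804.ExactM
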