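import Pool.Agent.H358R5.Gaps
import Pool.Agent.H804.ExactM

/-!
# Exact patterns of three and of four primes in every large admissible set of shifts

Every set of at least 3560 (290687) integers which misses a residue class modulo every prime has a subset `B`
with at least three (four) elements such that, for every `R`, the primes within distance `R` of `n` are exactly
the numbers `n + b`, `b ∈ B`, `|b| ≤ R`, for at least `x ^ (1 - ε)` integers `n ≤ x` in any prescribed residue
class, for arbitrarily large `x`. This rests on the theorem of Maynard and Tao for linear forms with the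
explicit constants of the starting files (`Pool.Agent.H358R5`).
-/

set_option autoImplicit false

open Filter

namespace Pool.Agent.Results.MP_3ec731_nt.ExactPatternsOfThree

/-- `S` has a subset `B` with at least `k` elements such that for all `R`, `ε > 0` and arbitrarily large `x` at
least `x ^ (1 - ε)` integers `0 ≤ n ≤ x`, `n ≡ r (mod q)`, have the property: for `|y| ≤ R` the number `n + y`
is prime if and only if `y ∈ B`. -/
def HasExactPattern (k : ℕ) (S : Finset ℤ) (q : ℕ) (r : ℤ) : Prop :=
  ∃ B : Finset ℤ, B ⊆ S ∧ k ≤ B.card ∧ ∀ (R : ℕ) (ε : ℝ), 0 < ε → ∃ᶠ x : ℝ in atTop,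
    x ^ (1 - ε) ≤ (Set.ncard {n : ℕ | (n : ℝ) ≤ x ∧ (n : ℤ) ≡ r [ZMOD q] ∧
      ∀ y : ℤ, |y| ≤ R → ((∃ p : ℕ, p.Prime ∧ (p : ℤ) = n + y) ↔ y ∈ B)} : ℝ)

/-- Let `S` be a finite set of integers which misses a residue class modulo every prime, and `r` a residue
modulo `q ≥ 1` such that all `r + s`, `s ∈ S`, are prime to `q`. If `S` has at least 3560 (290687) elements, or
if `4 m + 0.58 ≤ log |S|` with `m ≥ 2`, then `S` has an exact pattern of at least three (four, `m + 1`) primes
in the residue class `r` modulo `q`. -/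
theorem result (S : Finset ℤ) (hadm : ∀ p : ℕ, p.Prime → ∃ r : ℤ, ∀ s ∈ S, ¬ (p : ℤ) ∣ r + s) (q : ℕ)
    (r : ℤ) (hq : 0 < q) (hr : ∀ s ∈ S, IsCoprime (r + s) (q : ℤ)) :
    (3560 ≤ S.card → HasExactPattern 3 S q r) ∧ (290687 ≤ S.card → HasExactPattern 4 S q r) ∧
    ∀ m : ℕ, 2 ≤ m → 4 * (m : ℝ) + 29 / 50 ≤ Real.log S.card → HasExactPattern (m + 1) S q r := by
  have hgen : ∀ m : ℕ, 2 ≤ m → 4 * (m : ℝ) + 29 / 50 ≤ Real.log S.card → HasExactPattern (m + 1) S q r :=
    fun m hm hlog => Pool.Agent.H804.ExactM.exact_of m S.card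
      (Pool.Agent.H358R5.lhyp m S.card hm hlog) S le_rfl hadm q r hq hr
  refine ⟨fun hS => ?_, fun hS => ?_, hgen⟩
  · exact Pool.Agent.H804.ExactM.exact_of 2 3560 Pool.Agent.H358R5.lhyp3 S hS hadm q r hq hr
  · have h1 := Pool.Agent.H358R5.LOG_proof.2
    have h2 : Real.log 290687 ≤ Real.log S.card := Real.log_le_log (by norm_num) (by exact_mod_cast hS)
    exact hgen 3 (by norm_num) (by push_cast; exact h1.trans h2)

end Pool.Agent.Results.MP_3ec731_nt.ExactPatternsOfThree
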