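import Mathlib

/-!
# Distribution of a set of integers over the intervals between consecutive `e`-th powers
-/

set_option autoImplicit false

open Finset Filter

namespace Pool.Agent.H804.Powers

/-- the elements `p` of `S` with `n ^ e < p` and `p + w < (n + 1) ^ e` -/
noncomputable def inside (e : ℕ) (S : Set ℕ) (w n : ℕ) : ℕ :=
  {p : ℕ | p ∈ S ∧ n ^ e < p ∧ p + w < (n + 1) ^ e}.ncard

lemma inside_finite (e : ℕ) (S : Set ℕ) (w n : ℕ) :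
    {p : ℕ | p ∈ S ∧ n ^ e < p ∧ p + w < (n + 1) ^ e}.Finite := by
  apply (Set.finite_lt_nat ((n + 1) ^ e)).subset
  rintro p ⟨-, -, h⟩
  exact lt_of_le_of_lt (Nat.le_add_right _ _) h

/-- the length of the interval -/
lemma length_le (e n N : ℕ) (hn : n ≤ N) (hN : 1 ≤ N) :
    (n + 1) ^ (e + 1) ≤ n ^ (e + 1) + ((e + 1) * 2 ^ e) * N ^ e := by
  have h1 : (n + 1) ^ (e + 1) ≤ n ^ (e + 1) + (e + 1) * (n + 1) ^ e := by
    have h2 : ∀ k : ℕ, (n + 1) ^ (k + 1) ≤ n ^ (k + 1) + (k + 1) * (n + 1) ^ k := by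
      intro k
      induction k with
      | zero => simp
      | succ k ih =>
        have h3 : n ^ (k + 1) ≤ (n + 1) ^ (k + 1) := Nat.pow_le_pow_left (Nat.le_succ n) _
        calc (n + 1) ^ (k + 1 + 1) = (n + 1) ^ (k + 1) * n + (n + 1) ^ (k + 1) := by ring
          _ ≤ (n ^ (k + 1) + (k + 1) * (n + 1) ^ k) * n + (n + 1) ^ (k + 1) :=
              Nat.add_le_add_right (Nat.mul_le_mul_right _ ih) _
          _ = n ^ (k + 1 + 1) + ((k + 1) * (n + 1) ^ k) * n + (n + 1) ^ (k + 1) := by ring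
          _ ≤ n ^ (k + 1 + 1) + ((k + 1) * (n + 1) ^ k) * (n + 1) + (n + 1) ^ (k + 1) := by
              gcongr; omega
          _ = n ^ (k + 1 + 1) + (k + 1 + 1) * (n + 1) ^ (k + 1) := by ring
    exact h2 e
  have h4 : (n + 1) ^ e ≤ (2 * N) ^ e := Nat.pow_le_pow_left (by omega) e
  calc (n + 1) ^ (e + 1) ≤ n ^ (e + 1) + (e + 1) * (n + 1) ^ e := h1
    _ ≤ n ^ (e + 1) + (e + 1) * (2 * N) ^ e := by gcongr
    _ = _ := by rw [mul_pow]; ring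

lemma inside_le (e : ℕ) (S : Set ℕ) (w n N : ℕ) (hn : n ≤ N) (hN : 1 ≤ N) :
    inside (e + 1) S w n ≤ ((e + 1) * 2 ^ e) * N ^ e := by
  have h1 : inside (e + 1) S w n ≤ ((Ioo (n ^ (e + 1)) ((n + 1) ^ (e + 1)) : Finset ℕ) : Set ℕ).ncard := by
    apply Set.ncard_le_ncard _ (Finset.finite_toSet _)
    rintro p ⟨-, h2, h3⟩
    rw [mem_coe, mem_Ioo]
    exact ⟨h2, lt_of_le_of_lt (Nat.le_add_right _ _) h3⟩
  rw [Set.ncard_coe_finset, Nat.card_Ioo] at h1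
  have h2 := length_le e n N hn hN
  omega

open Classical in
/-- the counting lemma -/
lemma count (e : ℕ) (S : Set ℕ) (A : Finset ℕ) (hAS : (A : Set ℕ) ⊆ S) (w N K : ℕ) (hN : 1 ≤ N)
    (hA : ∀ p ∈ A, 1 ≤ p ∧ p < (N + 1) ^ (e + 1)) :
    A.card ≤ ((Icc 1 N).filter (fun n => K ≤ inside (e + 1) S w n)).card * (((e + 1) * 2 ^ e) * N ^ e) +
      N * (K + w + 1) := by
  -- the root
  have hroot : ∀ p ∈ A, ∃ n ∈ Icc 1 N, n ^ (e + 1) ≤ p ∧ p < (n + 1) ^ (e + 1) := by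
    intro p hp
    obtain ⟨h1, h2⟩ := hA p hp
    have hex : ∃ m : ℕ, p < (m + 1) ^ (e + 1) := ⟨N, h2⟩
    refine ⟨Nat.find hex, ?_, ?_, Nat.find_spec hex⟩
    · rw [mem_Icc]
      refine ⟨?_, Nat.find_min' hex h2⟩
      by_contra h0
      have h0' : Nat.find hex = 0 := by omega
      have := Nat.find_spec hex
      rw [h0', zero_add, one_pow] at this
      omega
    · by_contra h3
      push Not at h3
      have hpos : Nat.find hex ≠ 0 := by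
        intro h0
        rw [h0, zero_pow (Nat.succ_ne_zero e)] at h3
        omega
      obtain ⟨m, hm⟩ := Nat.exists_eq_succ_of_ne_zero hpos
      have := Nat.find_min hex (m := m) (by omega)
      apply this
      rw [hm] at h3
      exact h3
  have hsub : A ⊆ (Icc 1 N).biUnion
      (fun n => A.filter (fun p => n ^ (e + 1) ≤ p ∧ p < (n + 1) ^ (e + 1))) := by
    intro p hp
    obtain ⟨n, hn, h1⟩ := hroot p hp
    exact mem_biUnion.2 ⟨n, hn, mem_filter.2 ⟨hp, h1⟩⟩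
  have hone : ∀ n ∈ Icc 1 N, (A.filter (fun p => n ^ (e + 1) ≤ p ∧ p < (n + 1) ^ (e + 1))).card ≤
      (if K ≤ inside (e + 1) S w n then ((e + 1) * 2 ^ e) * N ^ e else 0) + (K + w + 1) := by
    intro n hn
    have h1 : A.filter (fun p => n ^ (e + 1) ≤ p ∧ p < (n + 1) ^ (e + 1)) ⊆
        (inside_finite (e + 1) S w n).toFinset ∪
          (insert (n ^ (e + 1)) (Ico ((n + 1) ^ (e + 1) - w) ((n + 1) ^ (e + 1)))) := by
      intro p hp
      obtain ⟨hp1, hp2, hp3⟩ := mem_filter.1 hp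
      rw [mem_union, Set.Finite.mem_toFinset, mem_insert, mem_Ico]
      by_cases h4 : p = n ^ (e + 1)
      · right; left; exact h4
      by_cases h5 : p + w < (n + 1) ^ (e + 1)
      · left
        exact ⟨hAS hp1, lt_of_le_of_ne hp2 (Ne.symm h4), h5⟩
      · right; right
        omega
    have h2 : (A.filter (fun p => n ^ (e + 1) ≤ p ∧ p < (n + 1) ^ (e + 1))).card ≤
        inside (e + 1) S w n + (w + 1) := by
      refine (card_le_card h1).trans ((card_union_le _ _).trans ?_)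
      have h3 : (inside_finite (e + 1) S w n).toFinset.card = inside (e + 1) S w n := by
        rw [inside, Set.ncard_eq_toFinset_card _ (inside_finite (e + 1) S w n)]
      rw [h3]
      apply Nat.add_le_add_left
      refine (card_insert_le _ _).trans ?_
      rw [Nat.card_Ico]
      omega
    split_ifs with h
    · have := inside_le e S w n N (mem_Icc.1 hn).2 hN
      omega
    · omega
  calc A.card ≤ ∑ n ∈ Icc 1 N, (A.filter (fun p => n ^ (e + 1) ≤ p ∧ p < (n + 1) ^ (e + 1))).card :=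
        (card_le_card hsub).trans card_biUnion_le
    _ ≤ ∑ n ∈ Icc 1 N,
          ((if K ≤ inside (e + 1) S w n then ((e + 1) * 2 ^ e) * N ^ e else 0) + (K + w + 1)) :=
        sum_le_sum hone
    _ = _ := by
        rw [sum_add_distrib, sum_const, Nat.card_Icc, ← sum_filter, sum_const]
        simp

open Classical in
/-- the analytic form -/
lemma main (e : ℕ) (he : 1 ≤ e) (ε : ℝ) (hε : 0 < ε) (hε1 : ε ≤ 1) : ∀ᶠ N : ℕ in atTop,
    ∀ (S : Set ℕ) (A : Finset ℕ) (w : ℕ),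
    (A : Set ℕ) ⊆ S → (∀ p ∈ A, 1 ≤ p ∧ p < (N + 1) ^ (e + 1)) → (w : ℝ) ≤ (N : ℝ) ^ ((e : ℝ) - ε) →
    (N : ℝ) ^ ((e : ℝ) + 1 - ε / 2) ≤ A.card →
    (N : ℝ) ^ (1 - ε) ≤
      (((Icc 1 N).filter (fun n : ℕ => (n : ℝ) ^ ((e : ℝ) - ε) ≤ (inside (e + 1) S w n : ℝ))).card : ℝ) := by
  obtain ⟨B, hB⟩ : ∃ B : ℕ, B = (e + 1) * 2 ^ e := ⟨_, rfl⟩
  have hB1 : 1 ≤ B := by rw [hB]; exact Nat.mul_pos (Nat.succ_pos _) (pow_pos two_pos _)
  have hBr : (1 : ℝ) ≤ B := by exact_mod_cast hB1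
  have h8 : ∀ᶠ N : ℕ in atTop, (B : ℝ) + 8 ≤ (N : ℝ) ^ (ε / 2) :=
    ((tendsto_rpow_atTop (by positivity)).comp tendsto_natCast_atTop_atTop).eventually_ge_atTop _
  have he' : (1 : ℝ) ≤ e := by exact_mod_cast he
  filter_upwards [h8, eventually_ge_atTop 1] with N h14 hN1 S A w hAS hA hw hcard
  have hN0 : (0 : ℝ) < N := by exact_mod_cast hN1
  have hN1' : (1 : ℝ) ≤ N := by exact_mod_cast hN1
  obtain ⟨K, hK⟩ : ∃ K, K = ⌈(N : ℝ) ^ ((e : ℝ) - ε)⌉₊ := ⟨_, rfl⟩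
  have hKpos : (0 : ℝ) ≤ (N : ℝ) ^ ((e : ℝ) - ε) := Real.rpow_nonneg hN0.le _
  have hK1 : (N : ℝ) ^ ((e : ℝ) - ε) ≤ K := by rw [hK]; exact Nat.le_ceil _
  have hK2 : (K : ℝ) ≤ (N : ℝ) ^ ((e : ℝ) - ε) + 1 := by rw [hK]; exact (Nat.ceil_lt_add_one hKpos).le
  have h1 := count e S A hAS w N K hN1 hA
  have hsub : ((Icc 1 N).filter (fun n => K ≤ inside (e + 1) S w n)).card ≤
      ((Icc 1 N).filter (fun n : ℕ => (n : ℝ) ^ ((e : ℝ) - ε) ≤ (inside (e + 1) S w n : ℝ))).card := by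
    apply card_le_card
    intro n hn
    obtain ⟨hn1, hn2⟩ := mem_filter.1 hn
    refine mem_filter.2 ⟨hn1, ?_⟩
    have h2 : (n : ℝ) ^ ((e : ℝ) - ε) ≤ (N : ℝ) ^ ((e : ℝ) - ε) :=
      Real.rpow_le_rpow (Nat.cast_nonneg n) (by exact_mod_cast (mem_Icc.1 hn1).2) (by linarith)
    have h3 : (K : ℝ) ≤ inside (e + 1) S w n := by exact_mod_cast hn2
    linarith
  obtain ⟨G, hG⟩ : ∃ G, G = ((Icc 1 N).filter
    (fun n : ℕ => (n : ℝ) ^ ((e : ℝ) - ε) ≤ (inside (e + 1) S w n : ℝ))).card := ⟨_, rfl⟩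
  rw [← hG] at hsub ⊢
  rw [← hB] at h1
  have h2 : (A.card : ℝ) ≤ G * (B * N ^ e) + N * (K + w + 1) := by
    have : A.card ≤ G * (B * N ^ e) + N * (K + w + 1) :=
      h1.trans (Nat.add_le_add_right (Nat.mul_le_mul_right _ hsub) _)
    exact_mod_cast this
  -- powers
  have e1 : (N : ℝ) * (N : ℝ) ^ ((e : ℝ) - ε) = (N : ℝ) ^ ((e : ℝ) + 1 - ε) := by
    have : (N : ℝ) ^ (1 + ((e : ℝ) - ε)) = (N : ℝ) ^ (1 : ℝ) * (N : ℝ) ^ ((e : ℝ) - ε) :=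
      Real.rpow_add hN0 _ _
    rw [Real.rpow_one] at this
    rw [← this]; congr 1; ring
  have e2 : (N : ℝ) ^ ((e : ℝ) + 1 - ε / 2) = (N : ℝ) ^ ((e : ℝ) + 1 - ε) * (N : ℝ) ^ (ε / 2) := by
    rw [← Real.rpow_add hN0]; congr 1; ring
  have e3 : (N : ℝ) ^ (1 - ε) * (N : ℝ) ^ e = (N : ℝ) ^ ((e : ℝ) + 1 - ε) := by
    rw [← Real.rpow_natCast, ← Real.rpow_add hN0]; congr 1; ring
  have e4 : (1 : ℝ) ≤ (N : ℝ) ^ ((e : ℝ) - ε) := Real.one_le_rpow hN1' (by linarith)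
  have h3 : (N : ℝ) * (K + w + 1) ≤ 4 * (N : ℝ) ^ ((e : ℝ) + 1 - ε) := by
    have : (K : ℝ) + w + 1 ≤ 4 * (N : ℝ) ^ ((e : ℝ) - ε) := by linarith
    calc (N : ℝ) * (K + w + 1) ≤ N * (4 * (N : ℝ) ^ ((e : ℝ) - ε)) := mul_le_mul_of_nonneg_left this hN0.le
      _ = 4 * (N * (N : ℝ) ^ ((e : ℝ) - ε)) := by ring
      _ = _ := by rw [e1]
  have hpos : (0 : ℝ) < (N : ℝ) ^ ((e : ℝ) + 1 - ε) := Real.rpow_pos_of_pos hN0 _
  have h4 : (B + 8) * (N : ℝ) ^ ((e : ℝ) + 1 - ε) ≤ (N : ℝ) ^ ((e : ℝ) + 1 - ε / 2) := by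
    rw [e2]; nlinarith
  have h5 : B * (N : ℝ) ^ ((e : ℝ) + 1 - ε) ≤ G * (B * N ^ e) := by linarith
  rw [← e3] at h5
  have h6 : (0 : ℝ) < B * (N : ℝ) ^ e := by positivity
  by_contra hcon
  push Not at hcon
  have := mul_lt_mul_of_pos_right hcon h6
  nlinarith

open Classical in
/-- monotonicity in the exponent -/
lemma good_mono (f : ℕ → ℕ) (c a b : ℝ) (hab : a ≤ b) (N : ℕ) (hN : 1 ≤ N)
    (h : (N : ℝ) ^ (1 - a) ≤ (((Icc 1 N).filter (fun n : ℕ => (n : ℝ) ^ (c - a) ≤ (f n : ℝ))).card : ℝ)) :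
    (N : ℝ) ^ (1 - b) ≤ (((Icc 1 N).filter (fun n : ℕ => (n : ℝ) ^ (c - b) ≤ (f n : ℝ))).card : ℝ) := by
  have hN1 : (1 : ℝ) ≤ N := by exact_mod_cast hN
  refine (Real.rpow_le_rpow_of_exponent_le hN1 (by linarith)).trans (h.trans ?_)
  rw [Nat.cast_le]
  apply card_le_card
  intro n hn
  obtain ⟨h1, h2⟩ := mem_filter.1 hn
  refine mem_filter.2 ⟨h1, le_trans (Real.rpow_le_rpow_of_exponent_le ?_ (by linarith)) h2⟩
  exact_mod_cast (mem_Icc.1 h1).1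

open Classical in
/-- pigeonhole -/
lemma pigeon {Θ : Type*} [Fintype Θ] (B : Finset ℕ) (hB : B.Nonempty) (c : Θ → ℤ) (S : Θ → Set ℕ) (M : ℕ)
    (h : ∀ n ∈ B, ∃ θ, ∃ p ∈ S θ, (p : ℤ) = n + c θ ∧ 1 ≤ p ∧ p < M) :
    ∃ θ, ∃ A : Finset ℕ, (A : Set ℕ) ⊆ S θ ∧ (∀ p ∈ A, 1 ≤ p ∧ p < M) ∧
      B.card ≤ Fintype.card Θ * A.card := by
  have hfin : ∀ θ, {p : ℕ | p ∈ S θ ∧ 1 ≤ p ∧ p < M}.Finite := fun θ =>
    (Set.finite_lt_nat M).subset (fun p hp => hp.2.2)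
  by_contra hcon
  push Not at hcon
  have h1 : ∀ θ, Fintype.card Θ * (hfin θ).toFinset.card < B.card := by
    intro θ
    apply hcon θ (hfin θ).toFinset
    · intro p hp
      rw [Set.Finite.coe_toFinset] at hp
      exact hp.1
    · intro p hp
      rw [Set.Finite.mem_toFinset] at hp
      exact hp.2
  have hsub : B ⊆ Finset.univ.biUnion (fun θ : Θ => B.filter (fun n : ℕ => ∃ p ∈ S θ, (p : ℤ) = n + c θ ∧ 1 ≤ p ∧ p < M)) := by
    intro n hn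
    obtain ⟨θ, hθ⟩ := h n hn
    exact mem_biUnion.2 ⟨θ, mem_univ _, mem_filter.2 ⟨hn, hθ⟩⟩
  have h2 : ∀ θ : Θ, (B.filter (fun n : ℕ => ∃ p ∈ S θ, (p : ℤ) = n + c θ ∧ 1 ≤ p ∧ p < M)).card ≤
      (hfin θ).toFinset.card := by
    intro θ
    apply card_le_card_of_injOn (fun n : ℕ => ((n : ℤ) + c θ).toNat)
    · intro n hn
      rw [mem_coe, mem_filter] at hn
      obtain ⟨-, p, hp, hpn, hp1, hp2⟩ := hn
      rw [mem_coe, Set.Finite.mem_toFinset]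
      have : ((n : ℤ) + c θ).toNat = p := by rw [← hpn]; exact Int.toNat_natCast p
      show ((n : ℤ) + c θ).toNat ∈ {p : ℕ | p ∈ S θ ∧ 1 ≤ p ∧ p < M}
      rw [this]
      exact ⟨hp, hp1, hp2⟩
    · intro n hn n' hn' hnn
      rw [mem_coe, mem_filter] at hn hn'
      obtain ⟨-, p, -, hpn, -, -⟩ := hn
      obtain ⟨-, p', -, hpn', -, -⟩ := hn'
      have e1 : ((n : ℤ) + c θ).toNat = p := by rw [← hpn]; exact Int.toNat_natCast p
      have e2 : ((n' : ℤ) + c θ).toNat = p' := by rw [← hpn']; exact Int.toNat_natCast p'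
      have e3 : p = p' := by rw [← e1, ← e2]; exact hnn
      rw [e3] at hpn
      omega
  have hΘ : Nonempty Θ := by
    obtain ⟨n, hn⟩ := hB
    obtain ⟨θ, -⟩ := h n hn
    exact ⟨θ⟩
  have h3 : B.card ≤ ∑ θ : Θ, (hfin θ).toFinset.card :=
    (card_le_card hsub).trans (card_biUnion_le.trans (sum_le_sum fun θ _ => h2 θ))
  have h4 : Fintype.card Θ * B.card ≤ ∑ θ : Θ, Fintype.card Θ * (hfin θ).toFinset.card := by
    rw [← mul_sum]
    exact Nat.mul_le_mul_left _ h3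
  have h5 : ∑ θ : Θ, Fintype.card Θ * (hfin θ).toFinset.card < ∑ _θ : Θ, B.card :=
    sum_lt_sum_of_nonempty (univ_nonempty_iff.2 hΘ) (fun θ _ => h1 θ)
  rw [sum_const, card_univ, smul_eq_mul] at h5
  omega

open Classical in
/-- the general theorem: one member of a finite family of sets has many elements in many intervals -/
theorem family {Θ : Type*} [Fintype Θ] (e : ℕ) (he : 1 ≤ e) (c : Θ → ℤ) (w : Θ → ℕ) (S : Θ → Set ℕ)
    (hpos : ∀ θ, ∀ p ∈ S θ, 1 ≤ p)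
    (H : ∀ δ : ℝ, 0 < δ → ∀ᶠ x : ℝ in atTop, ∃ B : Finset ℕ, x ^ (1 - δ) ≤ (B.card : ℝ) ∧
      ∀ n ∈ B, (n : ℝ) ≤ x ∧ ∃ θ, ∃ p ∈ S θ, (p : ℤ) = n + c θ)
    (ε : ℝ) (hε : 0 < ε) : ∀ᶠ N : ℕ in atTop, ∃ θ, (N : ℝ) ^ (1 - ε) ≤
      (((Icc 1 N).filter (fun n : ℕ => (n : ℝ) ^ ((e : ℝ) - ε) ≤ (inside (e + 1) (S θ) (w θ) n : ℝ))).card : ℝ) := by
  -- reduction to `ε ≤ 1 / 2`
  obtain ⟨η, hη, hη1, hηε⟩ : ∃ η : ℝ, 0 < η ∧ η ≤ 1 / 2 ∧ η ≤ ε :=
    ⟨min ε (1 / 2), lt_min hε (by norm_num), min_le_right _ _, min_le_left _ _⟩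
  have he' : (1 : ℝ) ≤ e := by exact_mod_cast he
  obtain ⟨m, hm⟩ : ∃ m : ℝ, m = (e : ℝ) + 1 := ⟨_, rfl⟩
  have hm0 : 0 < m := by linarith
  obtain ⟨δ, hδ⟩ : ∃ δ : ℝ, δ = η / (4 * m) := ⟨_, rfl⟩
  have hδ0 : 0 < δ := by rw [hδ]; positivity
  have hmδ : m * δ = η / 4 := by rw [hδ]; field_simp
  have hδ1 : δ ≤ 1 := by
    rw [hδ, div_le_one (by positivity)]
    linarith
  -- bounds for the parameters
  obtain ⟨W, hW⟩ : ∃ W : ℕ, ∀ θ, w θ ≤ W :=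
    ⟨∑ θ, w θ, fun θ => single_le_sum (fun _ _ => Nat.zero_le _) (mem_univ θ)⟩
  obtain ⟨Cc, hCc⟩ : ∃ C : ℕ, ∀ θ, c θ ≤ C :=
    ⟨∑ θ, (c θ).toNat, fun θ => (Int.self_le_toNat _).trans
      (by exact_mod_cast single_le_sum (f := fun θ => (c θ).toNat) (fun _ _ => Nat.zero_le _) (mem_univ θ))⟩
  have hpow : Tendsto (fun N : ℕ => (N : ℝ) ^ (e + 1) / 2) atTop atTop :=
    ((tendsto_pow_atTop (Nat.succ_ne_zero e)).comp tendsto_natCast_atTop_atTop).atTop_div_const two_pos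
  have c1 : ∀ᶠ N : ℕ in atTop, (W : ℝ) ≤ (N : ℝ) ^ ((e : ℝ) - η) :=
    ((tendsto_rpow_atTop (by linarith)).comp tendsto_natCast_atTop_atTop).eventually_ge_atTop _
  have c2 : ∀ᶠ N : ℕ in atTop, 2 * (Fintype.card Θ : ℝ) ≤ (N : ℝ) ^ (η / 4) :=
    ((tendsto_rpow_atTop (by positivity)).comp tendsto_natCast_atTop_atTop).eventually_ge_atTop _
  filter_upwards [hpow.eventually (H δ hδ0), hpow.eventually_ge_atTop (Cc : ℝ), c1, c2,
    Pool.Agent.H804.Powers.main e he η hη (by linarith), eventually_ge_atTop 1] with N hN1 hN2 hN3 hN4 hN5 hN6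
  obtain ⟨B, hB1, hB2⟩ := hN1
  have hN1r : (1 : ℝ) ≤ N := by exact_mod_cast hN6
  have hN0 : (0 : ℝ) < N := by linarith
  have hx0 : (0 : ℝ) < (N : ℝ) ^ (e + 1) / 2 := by positivity
  have hBne : B.Nonempty := by
    rw [← card_pos]
    have : (0 : ℝ) < (B.card : ℝ) := lt_of_lt_of_le (Real.rpow_pos_of_pos hx0 _) hB1
    exact_mod_cast this
  obtain ⟨θ, A, hA1, hA2, hA3⟩ := pigeon B hBne c S ((N + 1) ^ (e + 1)) (by
    intro n hn
    obtain ⟨h1, θ, p, hp, hpn⟩ := hB2 n hn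
    refine ⟨θ, p, hp, hpn, hpos θ p hp, ?_⟩
    have h2 : (p : ℝ) ≤ (N : ℝ) ^ (e + 1) := by
      have h3 : (p : ℝ) = n + (c θ : ℝ) := by exact_mod_cast hpn
      have h4 : (c θ : ℝ) ≤ Cc := by exact_mod_cast hCc θ
      linarith
    have h3 : p ≤ N ^ (e + 1) := by exact_mod_cast h2
    exact lt_of_le_of_lt h3 (Nat.pow_lt_pow_left (Nat.lt_succ_self N) (Nat.succ_ne_zero e)))
  refine ⟨θ, ?_⟩
  apply good_mono _ (e : ℝ) η ε hηε N hN6
  apply hN5 (S θ) A (w θ) hA1 hA2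
  · refine le_trans ?_ hN3
    exact_mod_cast hW θ
  · -- the size of `A`
    have hΘ : (0 : ℝ) < Fintype.card Θ := by
      exact_mod_cast Fintype.card_pos_iff.2 ⟨θ⟩
    have h1 : (N : ℝ) ^ (m - η / 4) / 2 ≤ ((N : ℝ) ^ (e + 1) / 2) ^ (1 - δ) := by
      rw [Real.div_rpow (by positivity) two_pos.le]
      have e1 : ((N : ℝ) ^ (e + 1)) ^ (1 - δ) = (N : ℝ) ^ (m - η / 4) := by
        rw [← Real.rpow_natCast, ← Real.rpow_mul hN0.le]
        congr 1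
        rw [← hmδ, hm]
        push_cast
        ring
      rw [e1]
      apply div_le_div_of_nonneg_left (Real.rpow_nonneg hN0.le _) (Real.rpow_pos_of_pos two_pos _)
      calc (2 : ℝ) ^ (1 - δ) ≤ 2 ^ (1 : ℝ) :=
            Real.rpow_le_rpow_of_exponent_le one_le_two (by linarith)
        _ = 2 := Real.rpow_one 2
    have e2 : (N : ℝ) ^ (m - η / 4) = (N : ℝ) ^ (m - η / 2) * (N : ℝ) ^ (η / 4) := by
      rw [← Real.rpow_add hN0]; congr 1; ring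
    have h2 : (B.card : ℝ) ≤ Fintype.card Θ * A.card := by exact_mod_cast hA3
    have h3 : (0 : ℝ) < (N : ℝ) ^ (m - η / 2) := Real.rpow_pos_of_pos hN0 _
    have h4 : (Fintype.card Θ : ℝ) * (N : ℝ) ^ (m - η / 2) ≤ Fintype.card Θ * A.card := by
      calc (Fintype.card Θ : ℝ) * (N : ℝ) ^ (m - η / 2)
          = (N : ℝ) ^ (m - η / 2) * (2 * (Fintype.card Θ : ℝ)) / 2 := by ring
        _ ≤ (N : ℝ) ^ (m - η / 2) * (N : ℝ) ^ (η / 4) / 2 := by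
            have := mul_le_mul_of_nonneg_left hN4 h3.le
            linarith
        _ = (N : ℝ) ^ (m - η / 4) / 2 := by rw [e2]
        _ ≤ _ := h1.trans (hB1.trans h2)
    rw [← hm]
    exact le_of_mul_le_mul_left h4 hΘ

end Pool.Agent.H804.Powers
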