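import Pool.Agent.Y826.ZC.Cons
import Pool.Agent.H804.Powers

/-!
# Gaps between consecutive primes from an admissible 45-tuple, between consecutive powers
-/

set_option autoImplicit false

open Finset Filter

namespace Pool.Agent.H804.Gap45

open Pool.Agent.H804.Powers

/-- the gap after `p` is `d` -/
def Gap (d p : ℕ) : Prop := p.Prime ∧ (p + d).Prime ∧ ∀ r : ℕ, p < r → r < p + d → ¬ r.Prime

open Classical in
theorem gaps (e : ℕ) (he : 1 ≤ e) (a : Fin 45 → ℕ) (hinj : Function.Injective a)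
    (hadm : ∀ p : ℕ, p.Prime → ∃ r : ℤ, ∀ i, ¬ (p : ℤ) ∣ r + a i) (ε : ℝ) (hε : 0 < ε) :
    ∀ᶠ N : ℕ in atTop, ∃ i j : Fin 45, a i < a j ∧ (N : ℝ) ^ (1 - ε) ≤
      (((Icc 1 N).filter (fun n : ℕ => (n : ℝ) ^ ((e : ℝ) - ε) ≤
        (inside (e + 1) {p | Gap (a j - a i) p} (a j - a i) n : ℝ))).card : ℝ) := by
  have hA : Function.Injective (fun i => (a i : ℤ)) := fun i j h => hinj (by
    have h' : (a i : ℤ) = a j := h
    exact_mod_cast h')
  have h := family (Θ := Fin 45 × Fin 45) e he (fun θ => (a θ.1 : ℤ)) (fun θ => a θ.2 - a θ.1)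
    (fun θ => {p | a θ.1 < a θ.2 ∧ Gap (a θ.2 - a θ.1) p}) (fun θ p hp => hp.2.1.one_le) (by
      intro δ hδ
      filter_upwards [Pool.Agent.Y826.ZC.dhl45_consecutive (fun i => (a i : ℤ)) hA hadm δ hδ,
        eventually_ge_atTop (0 : ℝ)] with x hx hx0
      refine ⟨_, hx, ?_⟩
      intro n hn
      rw [mem_filter, mem_Icc] at hn
      obtain ⟨⟨-, hn2⟩, hn3, hn4⟩ := hn
      refine ⟨(Nat.le_floor_iff hx0).1 hn2, ?_⟩
      obtain ⟨i, j, hij, m, hm1, hm2⟩ := Pool.Agent.Y826.ZC.consec_pair (fun i => (a i : ℤ)) n hn3 hA hn4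
      have hij' : a i < a j := by exact_mod_cast hij
      have e1 : Nat.nth Nat.Prime m = n + a i := by exact_mod_cast hm1
      have e2 : Nat.nth Nat.Prime (m + 1) = n + a j := by exact_mod_cast hm2
      have hp : (Nat.nth Nat.Prime m).Prime := Nat.prime_nth_prime m
      have hq : (Nat.nth Nat.Prime (m + 1)).Prime := Nat.prime_nth_prime (m + 1)
      refine ⟨(i, j), n + a i, ⟨hij', ?_, ?_, ?_⟩, by push_cast; ring⟩
      · rw [← e1]; exact hp
      · have : n + a i + (a j - a i) = n + a j := by omega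
        rw [this, ← e2]; exact hq
      · intro r h1 h2 hr
        have : n + a i + (a j - a i) = n + a j := by omega
        rw [this, ← e2] at h2
        rw [← e1] at h1
        obtain ⟨k, hk⟩ : ∃ k, Nat.nth Nat.Prime k = r := ⟨Nat.count Nat.Prime r, Nat.nth_count hr⟩
        rw [← hk] at h1 h2
        have h3 := (Nat.nth_strictMono Nat.infinite_setOfPred_prime).lt_iff_lt.1 h1
        have h4 := (Nat.nth_strictMono Nat.infinite_setOfPred_prime).lt_iff_lt.1 h2
        omega) ε hε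
  filter_upwards [h, eventually_ge_atTop 1] with N hN hN1
  obtain ⟨⟨i, j⟩, hθ⟩ := hN
  refine ⟨i, j, ?_, ?_⟩
  · by_contra hcon
    have h1 : ∀ n ∈ Icc 1 N, ¬ (n : ℝ) ^ ((e : ℝ) - ε) ≤
        (inside (e + 1) {p | a i < a j ∧ Gap (a j - a i) p} (a j - a i) n : ℝ) := by
      intro n hn h2
      have h3 : inside (e + 1) {p | a i < a j ∧ Gap (a j - a i) p} (a j - a i) n = 0 := by
        rw [inside]
        have : {p : ℕ | p ∈ {p | a i < a j ∧ Gap (a j - a i) p} ∧ n ^ (e + 1) < p ∧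
            p + (a j - a i) < (n + 1) ^ (e + 1)} = ∅ := by
          ext p
          simp [hcon]
        rw [this, Set.ncard_empty]
      rw [h3, Nat.cast_zero] at h2
      have h4 : (0 : ℝ) < n := by exact_mod_cast (mem_Icc.1 hn).1
      exact absurd h2 (not_le.2 (Real.rpow_pos_of_pos h4 _))
    have h2 : ((Icc 1 N).filter (fun n : ℕ => (n : ℝ) ^ ((e : ℝ) - ε) ≤
        (inside (e + 1) {p | a i < a j ∧ Gap (a j - a i) p} (a j - a i) n : ℝ))) = ∅ :=
      filter_eq_empty_iff.2 (fun n hn => h1 n hn)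
    have h3 : (N : ℝ) ^ (1 - ε) ≤ ((((Icc 1 N).filter (fun n : ℕ => (n : ℝ) ^ ((e : ℝ) - ε) ≤
        (inside (e + 1) {p | a i < a j ∧ Gap (a j - a i) p} (a j - a i) n : ℝ))).card : ℕ) : ℝ) := hθ
    rw [h2, card_empty, Nat.cast_zero] at h3
    have h4 : (0 : ℝ) < N := by exact_mod_cast hN1
    exact absurd h3 (not_le.2 (Real.rpow_pos_of_pos h4 _))
  · refine le_trans hθ ?_
    rw [Nat.cast_le]
    apply card_le_card
    intro n hn
    obtain ⟨h1, h2⟩ := mem_filter.1 hn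
    refine mem_filter.2 ⟨h1, h2.trans ?_⟩
    rw [Nat.cast_le]
    apply Set.ncard_le_ncard _ (inside_finite _ _ _ _)
    rintro p ⟨h3, h4⟩
    exact ⟨h3.2, h4⟩

end Pool.Agent.H804.Gap45
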